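import Pool.Agent.Helper60.KG.Assembly
import Pool.Agent.Helper60.KS.StG

/-! KG-1: `BadZeroG w`, unconditional -/

set_option autoImplicit false
open Filter Topology MeasureTheory Complex
open scoped Classical

namespace Pool.Agent.Helper60.KG

open Pool.Agent.Helper10.QRH Pool.Agent.Helper69.QRH Pool.Agent.Helper46.KSZ

lemma uu_rangeG {d : ℝ} (hd : -(1 / 2) ≤ d) {k j : ℕ} (hj : j < 2 ^ (k - ee d k)) :
    Real.log (2 ^ k) ≤ uu d k j ∧ uu d k j ≤ Real.log (2 ^ k) + 1 ∧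
      ((2 ^ k + j * 2 ^ ee d k : ℕ) : ℝ) + (2 : ℝ) ^ ee d k / 2 ≤ 2 * 2 ^ k := by
  have he := ee_leG hd k
  have h1 : (j + 1) * 2 ^ ee d k ≤ 2 ^ k := by
    calc (j + 1) * 2 ^ ee d k ≤ 2 ^ (k - ee d k) * 2 ^ ee d k := Nat.mul_le_mul_right _ hj
      _ = 2 ^ k := by rw [← pow_add, Nat.sub_add_cancel he]
  have h1r : ((j : ℝ) + 1) * 2 ^ ee d k ≤ 2 ^ k := by exact_mod_cast h1
  have hp : (0 : ℝ) < 2 ^ ee d k := by positivity
  have hpk : (0 : ℝ) < 2 ^ k := by positivity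
  have hj0 : (0 : ℝ) ≤ j := j.cast_nonneg
  have hc : ((2 ^ k + j * 2 ^ ee d k : ℕ) : ℝ) + (2 : ℝ) ^ ee d k / 2 ≤ 2 * 2 ^ k := by
    push_cast
    nlinarith
  refine ⟨?_, ?_, hc⟩
  · unfold uu
    refine Real.log_le_log hpk ?_
    push_cast
    nlinarith [mul_nonneg hj0 hp.le]
  · unfold uu
    refine (Real.log_le_log (by positivity) hc).trans ?_
    rw [Real.log_mul two_ne_zero hpk.ne']
    have := Real.log_two_lt_d9
    linarith

lemma uu_spacingG {d η : ℝ} (hd : -(1 / 2) ≤ d) {k : ℕ} (hk : 2 ≤ η * k) {j j' : ℕ}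
    (hj : j < 2 ^ (k - ee d k)) (hj' : j' < 2 ^ (k - ee d k)) (hne : j < j') :
    1 / ((2 : ℝ) ^ k) ^ (1/2 + d + η) ≤ uu d k j' - uu d k j := by
  obtain ⟨-, -, h1⟩ := uu_rangeG hd hj
  obtain ⟨-, -, h2⟩ := uu_rangeG hd hj'
  have hp : (0 : ℝ) < 2 ^ ee d k := by positivity
  have hpk : (0 : ℝ) < 2 ^ k := by positivity
  have hne' : (j : ℝ) + 1 ≤ j' := by exact_mod_cast hne
  set a : ℝ := ((2 ^ k + j * 2 ^ ee d k : ℕ) : ℝ) + (2 : ℝ) ^ ee d k / 2 with ha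
  set b : ℝ := ((2 ^ k + j' * 2 ^ ee d k : ℕ) : ℝ) + (2 : ℝ) ^ ee d k / 2 with hb
  have ha0 : 0 < a := by positivity
  have hb0 : 0 < b := by positivity
  have hab : a + 2 ^ ee d k ≤ b := by
    rw [ha, hb]; push_cast; nlinarith
  have h3 : uu d k j' - uu d k j = - Real.log (a / b) := by
    unfold uu
    rw [← ha, ← hb, Real.log_div ha0.ne' hb0.ne']; ring
  have h4 : Real.log (a / b) ≤ a / b - 1 := Real.log_le_sub_one_of_pos (by positivity)
  have h5 : (2 : ℝ) ^ ee d k / (2 * 2 ^ k) ≤ 1 - a / b := by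
    have : 1 - a / b = (b - a) / b := by field_simp
    rw [this]
    exact div_le_div₀ (by linarith) (by linarith) hb0 h2
  rw [h3]
  refine le_trans ?_ (h5.trans (by linarith))
  -- exponents
  have e1 : ((2 : ℝ) ^ k) ^ (1/2 + d + η) = (2 : ℝ) ^ ((k : ℝ) * (1/2 + d + η)) := by
    rw [← Real.rpow_natCast 2 k, ← Real.rpow_mul (by norm_num)]
  have e2 : (2 : ℝ) ^ ee d k = (2 : ℝ) ^ ((ee d k : ℕ) : ℝ) := (Real.rpow_natCast 2 _).symm
  have e3 : (2 : ℝ) * 2 ^ k = (2 : ℝ) ^ ((k : ℝ) + 1) := by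
    rw [Real.rpow_add_one (by norm_num), Real.rpow_natCast]; ring
  have hfl : (k : ℝ) * (1/2 - d) - 1 < (ee d k : ℝ) := by
    have := Nat.lt_floor_add_one ((k : ℝ) * (1/2 - d))
    unfold ee
    linarith
  rw [e1, e2, e3, ← Real.rpow_sub (by norm_num), one_div, ← Real.rpow_neg (by norm_num)]
  refine Real.rpow_le_rpow_of_exponent_le (by norm_num) ?_
  nlinarith


theorem explicitCellsG' : ExplicitCellsG :=
  explicitCellsG Helper33.KSZ.boxExists
    (Helper8.KSZ.shiftIter Helper79.QRH.kFacts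
      (Helper8.KSZ.shift Helper79.QRH.kFacts gBound'
        (Helper48.KSZ.lineTwo Helper79.QRH.kFacts gBound')) Helper9.KSZ.kerFacts)
    (primeSideG Helper9.KSZ.kerFacts)
    (lineFewG Helper79.QRH.kFacts gBound' Helper52.QRH.duality)
    (highZerosG Helper79.QRH.kFacts cardBox')

lemma ee_eq_ecw (w d : ℝ) (k : ℕ) : ee (d - w) k = Helper60.KS.ecw w d k := by
  unfold ee Helper60.KS.ecw
  congr 1
  ring

/-- explicit formula for cells of length `2^(ecw w d k)` -/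
theorem badZeroG {w : ℝ} (hw0 : 0 ≤ w) (hw : w ≤ 1 / 2) : Helper60.KS.BadZeroG w := by
  intro d hd0 hd
  obtain ⟨c₀, hc₀, K, hK⟩ := explicitCellsG' (d - w) d (by linarith) (by linarith) hd0 (by linarith)
  refine ⟨c₀, hc₀, max K ⌈2 / d⌉₊, fun k hk => ?_⟩
  obtain ⟨c, Ex, hc, hEx, hall⟩ := hK k ((le_max_left _ _).trans hk)
  have hdw : -(1 / 2) ≤ d - w := by linarith
  have hexp : 1 / 2 + (d - w) + d = 1 / 2 - w + 2 * d := by ring
  have hdk : 2 ≤ d * k := by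
    have h1 : (⌈2 / d⌉₊ : ℝ) ≤ k := by exact_mod_cast (le_max_right _ _).trans hk
    have h2 := (Nat.le_ceil (2 / d)).trans h1
    rw [div_le_iff₀ hd0] at h2
    linarith
  have hpow : ∀ x : ℝ, ((2 : ℝ) ^ k) ^ x = (2 : ℝ) ^ (x * k) := by
    intro x
    rw [← Real.rpow_natCast 2 k, ← Real.rpow_mul (by norm_num), mul_comm]
  rw [hexp] at hall
  rw [← ee_eq_ecw w d k]
  have hmem : ∀ ρ, ρ ∈ (zeroSetG_finite (1 / 2 - w + 2 * d) k).toFinset ↔
      ρ ∈ zeroSetG (1 / 2 - w + 2 * d) k := fun ρ => by simp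
  refine ⟨(zeroSetG_finite (1 / 2 - w + 2 * d) k).toFinset, c, uu (d - w) k, Ex, ?_, ?_, ?_, ?_, ?_, ?_⟩
  · intro ρ hρ
    obtain ⟨h0, h1, h2⟩ := (hmem ρ).1 hρ
    refine ⟨h0, by norm_num at h1 ⊢; exact h1, ?_⟩
    rw [hpow]
    linarith
  · intro ρ hρ
    obtain ⟨h0, h1, h2⟩ := (hmem ρ).1 hρ
    refine hc ρ (by linarith) ?_
    by_contra hcon
    exact riemannZeta_ne_zero_of_one_le_re (not_le.1 hcon).le h0
  · intro j hj
    obtain ⟨h1, h2, -⟩ := uu_rangeG hdw (j := j) (k := k) hj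
    exact ⟨h1, h2⟩
  · intro j hj j' hj' hne
    rw [← hexp]
    rcases lt_or_gt_of_ne hne with h | h
    · refine (uu_spacingG hdw hdk hj hj' h).trans ?_
      rw [abs_sub_comm]
      exact le_abs_self _
    · exact (uu_spacingG hdw hdk hj' hj h).trans (le_abs_self _)
  · rw [hpow]
    refine hEx.trans (le_of_eq ?_)
    congr 1
    ring
  · intro j hj hjE hfew
    have h := hall j hj hjE hfew _ hmem
    refine le_trans (by norm_num) h

end Pool.Agent.Helper60.KG
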