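import Pool.Agent.Helper60.KG.E10

/-! KG-1, the line integral is small outside of few cells -/

set_option autoImplicit false
open Filter Topology MeasureTheory

namespace Pool.Agent.Helper60.KG

open Pool.Agent.Helper10.QRH Pool.Agent.Helper69.QRH Pool.Agent.Helper46.KSZ Pool.Agent.Helper8.KSZ
open Pool.Agent.Helper8.KSZ.LF (cc cc_pos cc_eq uu_eq lamk_pos)

/-- the line integral is small outside of few cells -/
def LineFewG : Prop := ∀ (p : ℕ) (d η : ℝ), 1 ≤ p → -(1 / 2) ≤ d → d ≤ 1/100 → 0 < η → ∃ K : ℕ, ∀ k : ℕ, K ≤ k →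
  ∀ (M : Multiset ℂ) (Z : ℂ → ℂ), Box (2 ^ (5 * k)) M Z →
    (((Finset.range (2 ^ (k - ee d k))).filter (fun j =>
      1/100 * (2 : ℝ) ^ k ≤ ‖line p (lamk p d k) (2 ^ (5 * k)) Z (uu d k j)‖)).card : ℝ) ≤
      (2 : ℝ) ^ ((0.21 + 2 * d + 3 * η) * k)

lemma ee_leG {d : ℝ} (hd : -(1 / 2) ≤ d) (k : ℕ) : ee d k ≤ k := by
  have h1 : (k : ℝ) * (1/2 - d) ≤ k := by
    have : (0 : ℝ) ≤ k := Nat.cast_nonneg k
    nlinarith
  have h2 := Nat.floor_le_floor h1
  rwa [Nat.floor_natCast] at h2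

lemma cc_ltG (d : ℝ) (hd : -(1 / 2) ≤ d) (k j : ℕ) (hj : j < 2 ^ (k - ee d k)) : cc d k j ≤ 2 * 2 ^ k := by
  rw [cc_eq]
  have h1 : (j + 1) * 2 ^ ee d k ≤ 2 ^ k := by
    calc (j + 1) * 2 ^ ee d k ≤ 2 ^ (k - ee d k) * 2 ^ ee d k := Nat.mul_le_mul_right _ hj
      _ = 2 ^ k := by rw [← pow_add, Nat.sub_add_cancel (ee_leG hd k)]
  have h2 : ((j : ℝ) + 1) * 2 ^ ee d k ≤ 2 ^ k := by exact_mod_cast h1
  have h3 : (0 : ℝ) < 2 ^ ee d k := by positivity
  linarith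

lemma uu_sepG {p : ℕ} (hp : 1 ≤ p) (d : ℝ) (hd : -(1 / 2) ≤ d) (k j j' : ℕ) (hjj : j < j')
    (hj : j' < 2 ^ (k - ee d k)) : lamk p d k ≤ uu d k j' - uu d k j := by
  rw [uu_eq, uu_eq]
  have h1 : cc d k j + 2 ^ ee d k ≤ cc d k j' := by
    rw [cc_eq, cc_eq]
    have h2 : (j : ℝ) + 1 ≤ j' := by exact_mod_cast hjj
    have h3 : (0 : ℝ) < 2 ^ ee d k := by positivity
    nlinarith
  have h3 : (0 : ℝ) < 2 ^ ee d k := by positivity
  have h4 := Helper30.QRH.log_gap (cc_pos d k j) (by linarith : cc d k j ≤ cc d k j')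
  refine le_trans ?_ h4
  have h5 := cc_ltG d hd k j' hj
  have h6 := cc_pos d k j'
  unfold lamk
  have hp' : (1 : ℝ) ≤ p := by exact_mod_cast hp
  have hX : (0 : ℝ) < 2 ^ k := by positivity
  rw [div_le_div_iff₀ (by positivity) h6]
  have h7 : (2 : ℝ) * 2 ^ k ≤ 8 * p * 2 ^ k := by
    have : (2 : ℝ) ≤ 8 * p := by linarith
    exact mul_le_mul_of_nonneg_right this hX.le
  calc (2 : ℝ) ^ ee d k * cc d k j' ≤ 2 ^ ee d k * (8 * p * 2 ^ k) := by gcongr; linarith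
    _ ≤ (cc d k j' - cc d k j) * (8 * p * 2 ^ k) := by
        apply mul_le_mul_of_nonneg_right _ (by positivity)
        linarith

lemma uu_absG {p : ℕ} (hp : 1 ≤ p) (d : ℝ) (hd : -(1 / 2) ≤ d) (k j j' : ℕ) (hne : j ≠ j')
    (hj : j < 2 ^ (k - ee d k)) (hj' : j' < 2 ^ (k - ee d k)) :
    lamk p d k ≤ |uu d k j - uu d k j'| := by
  rcases lt_or_gt_of_ne hne with h | h
  · rw [abs_sub_comm]
    exact (uu_sepG hp d hd k j j' h hj').trans (le_abs_self _)
  · exact (uu_sepG hp d hd k j' j h hj).trans (le_abs_self _)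

lemma lamk_leG {p : ℕ} (hp : 1 ≤ p) (d : ℝ) (hd : -(1 / 2) ≤ d) (k : ℕ) : lamk p d k ≤ 1/2 := by
  unfold lamk
  have hp' : (1 : ℝ) ≤ p := by exact_mod_cast hp
  have hX : (0 : ℝ) < 2 ^ k := by positivity
  rw [div_le_iff₀ (by positivity)]
  have h1 : (2 : ℝ) ^ ee d k ≤ 2 ^ k := pow_le_pow_right₀ (by norm_num) (ee_leG hd k)
  nlinarith

lemma exp_uuG (d : ℝ) (hd : -(1 / 2) ≤ d) (k j : ℕ) (hj : j < 2 ^ (k - ee d k)) :
    Real.exp (0.605 * uu d k j) ≤ 2 * (2 : ℝ) ^ ((0.605 : ℝ) * k) := by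
  rw [uu_eq, mul_comm, ← Real.rpow_def_of_pos (cc_pos d k j)]
  calc cc d k j ^ (0.605 : ℝ) ≤ (2 * 2 ^ k) ^ (0.605 : ℝ) :=
        Real.rpow_le_rpow (cc_pos d k j).le (cc_ltG d hd k j hj) (by norm_num)
    _ = (2 : ℝ) ^ (0.605 : ℝ) * (2 : ℝ) ^ ((0.605 : ℝ) * k) := by
        rw [Real.mul_rpow (by norm_num) (by positivity), ← Real.rpow_natCast (2 : ℝ) k,
          ← Real.rpow_mul (by norm_num), mul_comm (k : ℝ)]
    _ ≤ 2 * (2 : ℝ) ^ ((0.605 : ℝ) * k) := by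
        gcongr
        calc (2 : ℝ) ^ (0.605 : ℝ) ≤ (2 : ℝ) ^ (1 : ℝ) :=
              Real.rpow_le_rpow_of_exponent_le (by norm_num) (by norm_num)
          _ = 2 := Real.rpow_one 2

theorem lineFewG (hK : KFacts) (hG : GBound) (hD : Duality) : LineFewG := by
  obtain ⟨CK0, hCK0⟩ := hK.bound
  obtain ⟨CG, hCG0, hCG⟩ := hG
  obtain ⟨CD, hCD⟩ := hD
  set CK : ℝ := |CK0| + 1 with hCKd
  have hCK1 : 1 ≤ CK := by linarith [abs_nonneg CK0]
  intro p d η hp hd hd1 hη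
  have hp' : (1 : ℝ) ≤ p := by exact_mod_cast hp
  set C' : ℝ := 200 * |CD| * (2 * (CK ^ p * (CG * 36))) * (9 * p) * (16 * p) with hC'
  obtain ⟨K, hKk⟩ := LF.exists_K C' η hη
  refine ⟨K + 1, ?_⟩
  intro k hk M Z hB
  have hk1 : 1 ≤ k := by omega
  have hk1' : (1 : ℝ) ≤ k := by exact_mod_cast hk1
  set lam := lamk p d k with hlam
  have hl : 0 < lam := LF.lamk_pos hp d k
  have hl2 : lam ≤ 1/2 := lamk_leG hp d hd k
  set T : ℝ := 2 ^ (5 * k) with hTd
  have hT : 1 ≤ T := one_le_pow₀ (by norm_num)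
  obtain ⟨hG1, -⟩ := hCG T M Z hT hB
  set L : ℝ := CG * (36 * (k : ℝ) ^ 2) with hLd
  have hL0 : 0 ≤ L := by positivity
  have hlogT : (Real.log (T + 2)) ^ 2 ≤ 36 * (k : ℝ) ^ 2 := by
    have h1 := LF.logT k hk1
    have h2 : 0 ≤ Real.log (T + 2) := Real.log_nonneg (by linarith)
    calc (Real.log (T + 2)) ^ 2 ≤ (6 * (k : ℝ)) ^ 2 := by gcongr
      _ = _ := by ring
  set B : ℝ := 2 * (CK ^ p * L) with hBd
  have hB0 : 0 ≤ B := by positivity
  have hgb := LF.gg_bound hp (lam := lam) (T := T) (CK := CK) (L := L) (Z := Z) (by linarith) hL0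
    (by
      intro s h0 h2
      refine (hCK0 lam hl (by linarith) s h0 h2).trans ?_
      apply div_le_div_of_nonneg_right _ (by positivity)
      linarith [le_abs_self CK0])
    (by
      intro s h0 h2 h3
      refine (hG1 s h0 h2 h3).trans ?_
      rw [hLd]
      gcongr)
  set F := (Finset.range (2 ^ (k - ee d k))).filter (fun j =>
      1/100 * (2 : ℝ) ^ k ≤ ‖line p lam T Z (uu d k j)‖) with hF
  have hFj : ∀ j ∈ F, j < 2 ^ (k - ee d k) := by
    intro j hj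
    exact Finset.mem_range.1 (Finset.mem_filter.1 hj).1
  have hinj : Set.InjOn (uu d k) F := by
    intro a ha b hb hab
    by_contra hne
    have := uu_absG hp d hd k a b hne (hFj a ha) (hFj b hb)
    rw [hab, sub_self, abs_zero] at this
    linarith
  have hdual := hCD lam hl hl2 (LF.gg p lam T Z) (LF.gg_meas hl hB.diff) B hB0 hgb
    (F.image (uu d k)) (by
      intro u hu u' hu' hne
      obtain ⟨a, ha, rfl⟩ := Finset.mem_image.1 hu
      obtain ⟨b, hb, rfl⟩ := Finset.mem_image.1 hu'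
      exact uu_absG hp d hd k a b (fun h => hne (by rw [h])) (hFj a ha) (hFj b hb))
  rw [Finset.sum_image hinj, Finset.card_image_of_injOn hinj] at hdual
  -- lower bound for each term
  set E : ℝ := (2 : ℝ) ^ ((0.605 : ℝ) * k) with hE
  have hE0 : 0 < E := by positivity
  have hlow : ∀ j ∈ F, (2 : ℝ) ^ k / (200 * E) ≤
      ‖∫ t : ℝ, LF.gg p lam T Z t * Complex.exp (t * (uu d k j) * Complex.I)‖ := by
    intro j hj
    have h1 := (Finset.mem_filter.1 hj).2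
    have h2 := LF.line_norm (p := p) (lam := lam) (T := T) (by linarith) Z (uu d k j)
    have h3 := exp_uuG d hd k j (hFj j hj)
    rw [div_le_iff₀ (by positivity)]
    have h4 : Real.exp (0.605 * uu d k j) *
        ‖∫ t : ℝ, LF.gg p lam T Z t * Complex.exp (t * (uu d k j) * Complex.I)‖ ≤
        (2 * E) * ‖∫ t : ℝ, LF.gg p lam T Z t * Complex.exp (t * (uu d k j) * Complex.I)‖ := by
      gcongr
    linarith
  have hsum : (F.card : ℝ) * ((2 : ℝ) ^ k / (200 * E)) ≤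
      CD * B * Real.log (1 / lam) / lam * Real.sqrt F.card := by
    refine le_trans ?_ hdual
    rw [← nsmul_eq_mul]
    exact Finset.card_nsmul_le_sum _ _ _ hlow
  -- final computation
  rcases Nat.eq_zero_or_pos F.card with h0 | hpos
  · rw [h0]
    simp only [Nat.cast_zero]
    positivity
  have hFc : (0 : ℝ) < F.card := by exact_mod_cast hpos
  set S : ℝ := Real.sqrt F.card with hS
  have hS0 : 0 < S := Real.sqrt_pos.2 hFc
  have hSS : (F.card : ℝ) = S * S := (Real.mul_self_sqrt hFc.le).symm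
  have hlog0 : 0 ≤ Real.log (1 / lam) := Real.log_nonneg (by rw [le_div_iff₀ hl]; linarith)
  have hS1 : S * ((2 : ℝ) ^ k / (200 * E)) ≤ CD * B * Real.log (1 / lam) / lam := by
    rw [hSS] at hsum
    have : S * (S * ((2 : ℝ) ^ k / (200 * E))) ≤ S * (CD * B * Real.log (1 / lam) / lam) := by
      linarith
    exact le_of_mul_le_mul_left this hS0
  have h1 := LF.inv_lamk hp d k
  have h2 := LF.log_inv_lamk hp d k hk1
  have hS2 : CD * B * Real.log (1 / lam) / lam ≤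
      |CD| * B * (9 * p * k) * (16 * p * (2 : ℝ) ^ ((1/2 + d) * k)) := by
    calc CD * B * Real.log (1 / lam) / lam = CD * (B * Real.log (1 / lam) * (1 / lam)) := by
          field_simp
      _ ≤ |CD| * (B * Real.log (1 / lam) * (1 / lam)) := by
          apply mul_le_mul_of_nonneg_right (le_abs_self _) (by positivity)
      _ ≤ |CD| * (B * (9 * p * k) * (16 * p * (2 : ℝ) ^ ((1/2 + d) * k))) := by gcongr
      _ = _ := by ring
  have hXk : (2 : ℝ) ^ k = (2 : ℝ) ^ (k : ℝ) := (Real.rpow_natCast _ _).symm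
  have hS3 : S ≤ C' * (k : ℝ) ^ 3 * (2 : ℝ) ^ ((0.105 + d) * k) := by
    have h3 : S * ((2 : ℝ) ^ k / (200 * E)) ≤
        |CD| * B * (9 * p * k) * (16 * p * (2 : ℝ) ^ ((1/2 + d) * k)) := hS1.trans hS2
    have h4 : (2 : ℝ) ^ ((1/2 + d) * k) * E = (2 : ℝ) ^ ((0.105 + d) * k) * (2 : ℝ) ^ k := by
      rw [hE, hXk, ← Real.rpow_add (by norm_num), ← Real.rpow_add (by norm_num)]
      congr 1
      ring
    rw [← mul_div_assoc, div_le_iff₀ (by positivity)] at h3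
    have h5 : |CD| * B * (9 * p * k) * (16 * p * (2 : ℝ) ^ ((1/2 + d) * k)) * (200 * E) =
        C' * (k : ℝ) ^ 3 * (2 : ℝ) ^ ((0.105 + d) * k) * (2 : ℝ) ^ k := by
      calc _ = 200 * |CD| * B * (9 * p * k) * (16 * p) * ((2 : ℝ) ^ ((1/2 + d) * k) * E) := by ring
        _ = 200 * |CD| * B * (9 * p * k) * (16 * p) *
            ((2 : ℝ) ^ ((0.105 + d) * k) * (2 : ℝ) ^ k) := by rw [h4]
        _ = _ := by
          rw [hC', hBd, hLd]
          ring
    rw [h5] at h3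
    exact le_of_mul_le_mul_right h3 (by positivity)
  have hS4 : S ≤ (2 : ℝ) ^ ((0.105 + d + 3/2 * η) * k) := by
    refine hS3.trans ?_
    have h6 := hKk k (by omega)
    calc C' * (k : ℝ) ^ 3 * (2 : ℝ) ^ ((0.105 + d) * k) ≤
        (2 : ℝ) ^ (3/2 * η * k) * (2 : ℝ) ^ ((0.105 + d) * k) := by gcongr
      _ = _ := by
        rw [← Real.rpow_add (by norm_num)]
        congr 1
        ring
  rw [hSS]
  calc S * S ≤ (2 : ℝ) ^ ((0.105 + d + 3/2 * η) * k) * (2 : ℝ) ^ ((0.105 + d + 3/2 * η) * k) :=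
        mul_le_mul hS4 hS4 hS0.le (by positivity)
    _ = (2 : ℝ) ^ ((0.21 + 2 * d + 3 * η) * k) := by
      rw [← Real.rpow_add (by norm_num)]
      congr 1
      ring

end Pool.Agent.Helper60.KG
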